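import Pool.Agent.helper77.BND.SpecB

/-!
# Project bnd (MP_376aaf_an): row BTF, the trace function
-/

set_option autoImplicit false

open scoped Topology Matrix
open Filter Finset

namespace Pool.Agent.BND

open Pool.Agent.CZ Pool.Agent.PV

theorem BTF_idem {A : Type} [Ring A] (p q : IdemMat A) (hn : p.n = q.n)
    (he : ∀ i j, p.e i j = q.e (Fin.cast hn i) (Fin.cast hn j)) : p = q := by
  obtain ⟨n, e, h⟩ := p
  obtain ⟨n', e', h'⟩ := q
  dsimp only at hn
  subst hn
  have h1 : e = e' := Matrix.ext fun i j => he i j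
  subst h1
  rfl

theorem BTF_unit {A : Type} [Ring A] (h : (1 : Matrix (Fin 1) (Fin 1) A) * 1 = 1) :
    k0 (1 : Matrix (Fin 1) (Fin 1) A) h = unitCls A := by
  unfold k0 unitCls
  congr 1
  refine BTF_idem _ _ (Fintype.card_fin 1) fun i j => ?_
  change (1 : Matrix (Fin 1) (Fin 1) A) ((Fintype.equivFin (Fin 1)).symm i) ((Fintype.equivFin (Fin 1)).symm j) =
    (1 : Matrix (Fin 1) (Fin 1) A) (Fin.cast _ i) (Fin.cast _ j)
  rw [Subsingleton.elim ((Fintype.equivFin (Fin 1)).symm i) ((Fintype.equivFin (Fin 1)).symm j),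
    Subsingleton.elim (Fin.cast (Fintype.card_fin 1) i) (Fin.cast (Fintype.card_fin 1) j), Matrix.one_apply_eq]
  exact (Matrix.one_apply_eq _).symm

theorem BTF_list (u : List ℕ) (x y z : ℕ → ℤ) (k : ℤ) (h : ∀ v, x v = y v - k * z v) :
    (u.map x).sum = (u.map y).sum - k * (u.map z).sum := by
  induction u with
  | nil => simp
  | cons a u ih => rw [List.map_cons, List.map_cons, List.map_cons, List.sum_cons, List.sum_cons, List.sum_cons, ih, h]; ring

theorem BTF (hBFG : BFG_stmt) (hBTZ : BTZ_stmt) (hXSU : XSU_stmt) (hLFT : LFT_stmt) (hBDM : BDM_stmt) (hK0G : K0G_stmt) : BTF_stmt := by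
  intro B M _ α A _ ι u c hC S hS m R hR w
  have _ := hBTZ
  have _ := hBDM
  have hlv : IsLv (B.L m) := hC.bs.lv m
  obtain ⟨r, r', E, hE, hw⟩ := hK0G (S m) w
  have hG1 : ∀ a b : Fin r, ∃ G : ℕ → ℝ → ℕ → ℕ → ℂ, IsFm (B.L m) G ∧ Fam B c m (E a b : A) G := fun a b =>
    hBFG B M α A ι u c hC m (E a b : A) ((hS.mem m _).1 (E a b).2)
  choose G hGf hGF using hG1
  obtain ⟨T, hTc, hTv⟩ := hLFT (B.L m) hlv ℂ (fun e s i => ∑ a, G a a e s i i - (r' : ℂ))
    (fun e i he hi => (continuousOn_finsetSum _ fun a _ => (hGf a a).cont e i i he hi hi).sub continuousOn_const)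
    (fun e s i he hs hi => by
      have h1 : ∀ a, G a a e s i i = G a a e 0 i i := fun a => (hGf a a).vtx e s i i he hs hi hi
      simp only [h1])
    (fun e i b _ he hi => by
      have h1 : ∀ a, G a a e (if b then 1 else 0) i i =
          G a a (fl (B.L m).h ((B.L m).W e b) i).1 0 (fl (B.L m).h ((B.L m).W e b) i).2 (fl (B.L m).h ((B.L m).W e b) i).2 := fun a => by
        rw [(hGf a a).ends e i i b he hi hi]
        unfold bd
        rw [if_pos rfl]
      simp only [h1])
  refine ⟨r, r', E, hE, T, hw, hTc, fun x => ?_, fun e s b he hs => ?_⟩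
  · obtain ⟨e, s, i, he, hs, hi, hx⟩ := (x.2 m).1
    rw [hx, hTv e s i he hs hi]
    congr 1
    refine Finset.sum_congr rfl fun a _ => ?_
    rw [hGF a a x e s i he hs hi hx 0, sub_zero, if_pos ⟨Int.natCast_nonneg i, by exact_mod_cast hi⟩, Int.toNat_natCast]
  · -- the unit
    have h1 : (1 : Matrix (Fin 1) (Fin 1) (S m)) * 1 = 1 := one_mul 1
    obtain ⟨G1, -, hG1F⟩ := hBFG B M α A ι u c hC m (1 : A) ((hS.mem m _).1 (S m).one_mem)
    have hc1 : c 0 (1 : A) = 1 := by
      have h2 := hC.cov.cval 0 0 1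
      rw [if_pos rfl] at h2
      have h3 : ι 1 * up u 0 = 1 := by
        rw [map_one, one_mul]
        unfold up
        rw [zpow_zero]
        rfl
      rw [h3] at h2
      exact h2
    have hG1v : ∀ i, i < (B.L m).h e → G1 e s i i = 1 := by
      intro i hi
      obtain ⟨x, hx⟩ := hXSU B M hC.bs m (emb (B.L m) e s i) ⟨e, s, i, he, hs, hi, rfl⟩
      have h4 := hG1F x e s i he hs hi hx 0
      rw [sub_zero, if_pos ⟨Int.natCast_nonneg i, by exact_mod_cast hi⟩, Int.toNat_natCast, hc1] at h4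
      rw [← h4]
      rfl
    have hU : (((B.L m).h e : ℕ) : ℂ) = ((((B.L m).W e false).map (R (unitCls (S m)))).sum : ℤ) := by
      have h5 := hR.1 (Fin 1) 1 h1 (fun _ _ => G1) (fun a b => by
        rw [Subsingleton.elim a b, Matrix.one_apply_eq]
        exact hG1F) e s he hs
      rw [BTF_unit h1] at h5
      rw [← h5, Finset.univ_unique, Finset.sum_singleton, Finset.sum_congr rfl fun i hi => hG1v i (Finset.mem_range.1 hi)]
      simp
    have hW : ∑ a, ∑ i ∈ range ((B.L m).h e), G a a e s i i = ((((B.L m).W e false).map (R (k0 E hE))).sum : ℤ) :=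
      hR.1 (Fin r) E hE G hGF e s he hs
    have hlist : (((B.L m).W e false).map (R w)).sum = (((B.L m).W e false).map (R (k0 E hE))).sum -
        (r' : ℤ) * (((B.L m).W e false).map (R (unitCls (S m)))).sum := by
      refine BTF_list _ _ _ _ _ fun v => ?_
      rw [hw, map_sub, map_nsmul, Pi.sub_apply, Pi.smul_apply, nsmul_eq_mul]
    have hb : (((B.L m).W e b).map (R w)).sum = (((B.L m).W e false).map (R w)).sum := by
      cases b
      · rfl
      · exact (hR.2.2 w e he).symm
    rw [hb, hlist, Finset.sum_congr rfl fun i hi => hTv e s i he hs (Finset.mem_range.1 hi), Finset.sum_sub_distrib,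
      Finset.sum_comm, hW, Finset.sum_const, Finset.card_range, nsmul_eq_mul, hU]
    push_cast
    ring

end Pool.Agent.BND
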