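import Pool.Agent.helper53.BND.SpecL

/-!
# Project bnd (MP_376aaf_an): row LZL, winding number zero
-/

set_option autoImplicit false

open scoped Topology Matrix
open Filter Finset

namespace Pool.Agent.BND

open Pool.Agent.CZ Pool.Agent.PV

theorem LZL_list (u : List ℕ) (x : ℕ → ℂ) : (u.map x).sum + (u.map fun v => -x v).sum = 0 := by
  induction u with
  | nil => simp
  | cons a u ih =>
    rw [List.map_cons, List.map_cons, List.sum_cons, List.sum_cons]
    linear_combination ih

theorem LZL (hLPF : LPF_stmt) (hLEX : LEX_stmt) (hLGM : LGM_stmt) (hK1M : K1M_stmt) : LZL_stmt := by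
  intro B M _ α A _ ι u c hC S hS m κ _ _ g G lam hG hg hlam hdet
  have hlv : IsLv (B.L m) := hC.bs.lv m
  have h0U : (0 : ℝ) ∈ U := ⟨le_refl 0, zero_le_one⟩
  rcases isEmpty_or_nonempty κ with hκ | hκ
  · have h1 : g = 1 := Units.ext (Matrix.ext fun i _ => hκ.elim i)
    rw [h1]
    exact (hK1M (S m) κ 1 1).2.2.1
  · obtain ⟨p, Gp, μ, hGp, hp, hp0, hpv, hpb⟩ := hLPF B M α A ι u c hC S hS m κ (fun v => (mx (B.L m) G v 0)⁻¹)
      (fun v => -lam v 0) (fun v hv => by
        rw [Matrix.det_nonsing_inv, Ring.inverse_eq_inv', hdet v 0 (lt_of_lt_of_le hv hlv.nN) h0U, Complex.exp_neg])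
    have hf := hLEX B M α A ι u c hC S hS m κ (g * p) (fmul (B.L m) G Gp) (fun e s => lam e s + μ e s)
      (hLGM.2.1 (B.L m) hlv κ G Gp hG hGp)
      (by
        rw [Units.val_mul]
        exact hLGM.2.2 B M α A ι u c hC S hS m κ _ _ G Gp hG.fm hGp.fm hg hp)
      (fun v hv => by
        rw [hLGM.1, hpv v hv]
        exact Matrix.mul_nonsing_inv _ (isUnit_iff_ne_zero.2 (hG.det v 0 (lt_of_lt_of_le hv hlv.nN) h0U)))
      (fun e hne heN => by
        obtain ⟨h1, h2, h3, h4⟩ := hpb e hne heN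
        refine ⟨(hlam.cts e heN).add h1, ?_, ?_, fun s hs => ?_⟩
        · rw [hlam.at0 e heN, h2]
          exact LZL_list _ _
        · rw [hlam.at1 e heN, h3, Int.cast_zero, mul_zero, add_zero]
          exact LZL_list _ _
        · rw [hLGM.1, Matrix.det_mul, hdet e s heN hs, h4 s hs, ← Complex.exp_add])
    rw [(hK1M (S m) κ g p).1, hp0, add_zero] at hf
    exact hf

end Pool.Agent.BND
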